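import Pool.Agent.Helper39.BS.Sep
import Pool.Graph.R_seed8.TH213.SEL.Bir
import Pool.Graph.R_pool_sql_team_seeded_63374d34.N890.KO.All

/-!
# Sections and their restrictions to subfields
-/

set_option autoImplicit false

open NumberField IsDedekindDomain Polynomial
open Pool.Agent.TH954

namespace Pool.Agent.Helper39.BS

section restr

variable {k F Ω B : Type} [Field k] [Field F] [Field Ω] [Field B] [Algebra F Ω] [Algebra k Ω]
  [Algebra k B]

/-- The elements of `Ω` fixed by a section. -/
def fixS [Algebra k F] [IsScalarTower k F Ω] (s : GalSection k F Ω B) : IntermediateField k Ω where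
  carrier := {x | ∀ g, s.s g x = x}
  mul_mem' := fun {x y} hx hy g => by rw [map_mul, hx g, hy g]
  one_mem' := fun g => map_one _
  add_mem' := fun {x y} hx hy g => by rw [map_add, hx g, hy g]
  zero_mem' := fun g => map_zero _
  algebraMap_mem' := fun c g => by
    rw [IsScalarTower.algebraMap_apply k F Ω]
    exact (s.s g).commutes _
  inv_mem' := fun x hx g => by rw [map_inv₀, hx g]

/-- the point stabilisers are neighbourhoods of the identity -/
lemma fix_mem_nhds [IsAlgClosure F Ω] (s : GalSection k F Ω B) (x : Ω) :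
    {g : B ≃ₐ[k] B | s.s g x = x} ∈ nhds (1 : B ≃ₐ[k] B) := by
  have : Algebra.IsAlgebraic F Ω := IsAlgClosure.isAlgebraic
  have h2 := s.cont.continuousAt (x := 1)
  have h3 : {g : Ω ≃ₐ[F] Ω | g x = x} ∈ nhds (s.s 1) := by
    rw [map_one]
    exact fix_nhds x
  exact h2 h3

/-- continuity of an action on an extension of a field -/
lemma cont_of {G E : Type} [Field E] [Algebra E Ω] [Group G] [TopologicalSpace G]
    [IsTopologicalGroup G] (φ : G →* (Ω ≃ₐ[E] Ω))
    (h : ∀ x : Ω, {g | φ g x = x} ∈ nhds (1 : G)) : Continuous φ := by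
  apply continuous_of_continuousAt_one
  rw [ContinuousAt, map_one]
  intro S hS
  rw [krullTopology_mem_nhds_one_iff] at hS
  obtain ⟨L, hL, hLS⟩ := hS
  obtain ⟨T, hT⟩ := IntermediateField.essFiniteType_iff.1
    (inferInstance : Algebra.EssFiniteType E L)
  have h1 : (⋂ x ∈ T, {g | φ g (x : Ω) = x}) ∈ nhds (1 : G) :=
    (Filter.biInter_finset_mem T).2 fun x _ => h x
  refine Filter.mem_map.2 (Filter.mem_of_superset h1 fun g hg => hLS ?_)
  rw [SetLike.mem_coe, IntermediateField.mem_fixingSubgroup_iff]
  have h2 : L ≤ IntermediateField.fixedField (Subgroup.zpowers (φ g)) := by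
    rw [← hT, IntermediateField.adjoin_le_iff]
    intro x hx
    rw [SetLike.mem_coe, IntermediateField.mem_fixedField_iff]
    intro σ hσ
    have h5 : Subgroup.zpowers (φ g) ≤ MulAction.stabilizer _ x := by
      rw [Subgroup.zpowers_le]
      exact Set.mem_iInter₂.1 hg x hx
    exact h5 hσ
  intro x hx
  exact (IntermediateField.mem_fixedField_iff _ _).1 (h2 hx) _ (Subgroup.mem_zpowers _)

/-- A section over a subfield of the fixed field. -/
noncomputable def restr [Algebra k F] [IsScalarTower k F Ω] [IsAlgClosure F Ω]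
    [IsAlgClosure k B] (s : GalSection k F Ω B)
    (E : IntermediateField k Ω) (hE : E ≤ fixS s) : GalSection k E Ω B where
  j := s.j
  s :=
    { toFun := fun g => AlgEquiv.ofRingEquiv (f := (s.s g : Ω ≃+* Ω)) (fun u => hE u.2 g)
      map_one' := by
        ext x
        change s.s 1 x = x
        rw [map_one]
        rfl
      map_mul' := fun g h => by
        ext x
        change s.s (g * h) x = s.s g (s.s h x)
        rw [map_mul]
        rfl }
  cont := cont_of _ fun x => fix_mem_nhds s x
  sec := fun g x => s.sec g x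

/-- local points of sections -/
lemma geoOver {K : Type} [Field K] [NumberField K] [Algebra K F] [Algebra K Ω] [Algebra K B]
    [IsScalarTower K F Ω] [IsAlgClosure F Ω] [IsAlgClosure K B] (s : GalSection K F Ω B)
    (v : HeightOneSpectrum (𝓞 K)) :
    ∃ pl : Plc K Ω (AlgebraicClosure (v.adicCompletion K)), GeoPlc (toSAct s) pl := by
  have hΩ2 : Algebra.IsAlgebraic F Ω := IsAlgClosure.isAlgebraic
  obtain ⟨p, hp⟩ := Pool.Agent.N890.KO.koenigsmann K v K F Ω B s
  exact toSAct_geo s ⟨p, hp⟩

lemma mem_fixS {K : Type} [Field K] [NumberField K] [Algebra K F] [Algebra K Ω] [Algebra K B]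
    [IsScalarTower K F Ω] [IsAlgClosure F Ω] [IsAlgClosure K B] (s : GalSection K F Ω B)
    [Algebra.IsAlgebraic F Ω] {x : Ω} : x ∈ (toSAct s).fix ↔ x ∈ fixS s := by
  constructor
  · intro h g
    rw [← toSAct_s]
    exact h _
  · intro h τ
    exact h _

end restr

end Pool.Agent.Helper39.BS
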