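import Pool.Agent.Helper39.BS.Pow
import Pool.Graph.R_seed8.TH115.TC.Compl

/-!
# Places above a given place, and the map of the completions
-/

set_option autoImplicit false

open NumberField IsDedekindDomain
open Pool.Agent.Y682 Pool.Agent.TH954

namespace Pool.Agent.Helper39.BS

theorem above (K K' : Type) [Field K] [NumberField K] [Field K'] [NumberField K'] [Algebra K K']
    (v : HeightOneSpectrum (𝓞 K)) :
    ∃ (w : HeightOneSpectrum (𝓞 K')) (j : v.adicCompletion K →+* w.adicCompletion K'),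
      ∀ x : K, j (algebraMap K _ x) = algebraMap K' _ (algebraMap K K' x) := by
  have hinj : Function.Injective (algebraMap (𝓞 K) (𝓞 K')) :=
    FaithfulSMul.algebraMap_injective (𝓞 K) (𝓞 K')
  have hmax := v.isMaximal
  obtain ⟨Q, hQ, hQv⟩ := Ideal.exists_ideal_over_maximal_of_isIntegral (S := 𝓞 K') v.asIdeal (by
    rw [(RingHom.injective_iff_ker_eq_bot _).1 hinj]
    exact bot_le)
  have hQ0 : Q ≠ ⊥ := by
    rintro rfl
    apply v.ne_bot
    rw [← hQv, ← RingHom.ker_eq_comap_bot, (RingHom.injective_iff_ker_eq_bot _).1 hinj]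
  let w : HeightOneSpectrum (𝓞 K') := ⟨Q, hQ.isPrime, hQ0⟩
  have hw : ∀ n : 𝓞 K, algebraMap (𝓞 K) (𝓞 K') n ∈ w.asIdeal ↔ n ∈ v.asIdeal := by
    intro n
    rw [← Ideal.mem_comap]
    change n ∈ Q.comap (algebraMap (𝓞 K) (𝓞 K')) ↔ _
    rw [hQv]
  have key : ∀ x : K, v.valuation K x ≤ 1 → ∃ n : 𝓞 K,
      v.valuation K x = v.valuation K (algebraMap (𝓞 K) K n) ∧
      w.valuation K' (algebraMap K K' x) =
        w.valuation K' (algebraMap (𝓞 K') K' (algebraMap (𝓞 K) (𝓞 K') n)) := by
    intro x hx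
    obtain ⟨n, d, hnd⟩ := v.exists_primeCompl_mul_eq_of_integer x hx
    have hdv : v.valuation K (algebraMap (𝓞 K) K d) = 1 :=
      v.valuation_eq_one_iff_notMem.2 d.2
    have hdw : w.valuation K' (algebraMap (𝓞 K') K' (algebraMap (𝓞 K) (𝓞 K') d)) = 1 :=
      w.valuation_eq_one_iff_notMem.2 fun h => d.2 ((hw d).1 h)
    refine ⟨n, ?_, ?_⟩
    · have h2 := congrArg (fun z => v.valuation K z) hnd
      simp only [map_mul] at h2
      rw [hdv, mul_one] at h2
      exact h2
    · have h2 := congrArg (fun z => w.valuation K' (algebraMap K K' z)) hnd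
      simp only [map_mul] at h2
      have e : ∀ z : 𝓞 K, algebraMap K K' (algebraMap (𝓞 K) K z) =
          algebraMap (𝓞 K') K' (algebraMap (𝓞 K) (𝓞 K') z) := fun z => by
        rw [← IsScalarTower.algebraMap_apply, ← IsScalarTower.algebraMap_apply]
      rw [e, e, hdw, mul_one] at h2
      exact h2
  obtain ⟨j, hj, -⟩ := Pool.Agent.TH115.GD.exists_compl_map v w (algebraMap K K') (fun x hx => by
    obtain ⟨n, -, h⟩ := key x hx
    rw [h]
    exact HeightOneSpectrum.valuation_le_one w _) (fun x hx => by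
    obtain ⟨n, h1, h⟩ := key x hx.le
    rw [h]
    rw [h1] at hx
    exact (w.valuation_lt_one_iff_mem _).2 ((hw n).2 ((v.valuation_lt_one_iff_mem _).1 hx)))
  exact ⟨w, j, hj⟩

end Pool.Agent.Helper39.BS
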