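import Pool.Agent.Helper39.BS.Abv
import Pool.Graph.R_seed8.TH954.SFinV

/-!
# Kummer classes of one function at a section
-/

set_option autoImplicit false

open NumberField IsDedekindDomain Polynomial
open Pool.Agent.Y682 Pool.Agent.TH954

namespace Pool.Agent.Helper39.BS

section local_

variable {K : Type} [Field K] [NumberField K] {M : Type} [Field M] [Algebra K M]
  {A : SAct K M} {v : HeightOneSpectrum (𝓞 K)}
  {pl : Plc K M (AlgebraicClosure (v.adicCompletion K))}

lemma V_one : V v pl (1 : M) 1 := by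
  have := V_base (pl := pl) (1 : K)
  rwa [map_one, map_one] at this

lemma V_zero_iff {x : M} : V v pl x 0 ↔ pl.val x 0 := by
  unfold V
  rw [map_zero]

lemma V_npow {x : M} {ξ : v.adicCompletion K} (h : V v pl x ξ) (n : ℕ) :
    V v pl (x ^ n) (ξ ^ n) := by
  have := Plc.val.pow h n
  rwa [← map_pow] at this

lemma V_inv {x : M} {ξ : v.adicCompletion K} (h : V v pl x ξ) (hξ : ξ ≠ 0) :
    V v pl x⁻¹ ξ⁻¹ := by
  have := Plc.val.inv h ((_root_.map_ne_zero _).2 hξ)
  rwa [← map_inv₀] at this

lemma V_root (hpl : GeoPlc A pl) {z : M} (hz : z ∈ A.fix) {η : v.adicCompletion K} {n : ℕ}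
    (hn : 0 < n) (h : V v pl (z ^ n) η) : ∃ ζ, V v pl z ζ ∧ ζ ^ n = η := by
  have hW : z ∈ pl.W := Plc.mem_of_pow_mem hn h.mem
  obtain ⟨ζ, hζ⟩ := V_fix hpl hz hW
  exact ⟨ζ, hζ, V_unique (pl := pl) (x := z ^ n) (V_npow hζ n) h⟩

/-- a constant which is a power in the fixed field is a power -/
lemma const_pow {d : K} {n : ℕ} (hn : 0 < n) {z : M} (hz : z ∈ A.fix)
    (h : z ^ n = algebraMap K M d) : ∃ r : K, r ^ n = d ∧ z = algebraMap K M r := by
  have hc : CharZero K := inferInstance
  have halg : IsAlgebraic K z := by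
    have : IsAlgebraic K (z ^ n) := h ▸ isAlgebraic_algebraMap d
    exact this.of_pow hn
  obtain ⟨y, rfl⟩ := alg_range A.j halg
  obtain ⟨r, rfl⟩ := A.fix_j hz
  rw [A.j.commutes] at h ⊢
  refine ⟨r, (algebraMap K M).injective ?_, rfl⟩
  rw [map_pow, h]

end local_

section core

variable {K : Type} [Field K] [NumberField K] {M : Type} [Field M] [Algebra K M] [IsAlgClosed M]
  (A : SAct K M)
  (pl : ∀ v : HeightOneSpectrum (𝓞 K), Plc K M (AlgebraicClosure (v.adicCompletion K)))
  {K' : Type} [Field K'] [NumberField K'] [Algebra K K']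

/-- **The class of one function.** If for all `N` the class modulo `N`-th powers of the nonconstant
function `g` at a section is, over the finite extension `K'`, that of one of the elements of a finite
set, then some rational function of `g` vanishes at all places. -/
theorem one_function (hpl : ∀ v, GeoPlc A (pl v)) {g : M} (hg : g ∈ A.fix)
    (hgK : ∀ b : K, g ≠ algebraMap K M b) (H : Finset K') (hH : ∀ η ∈ H, η ≠ 0) {D : ℕ}
    (hD : 0 < D)
    (hyp : ∀ N : ℕ, 0 < N → D ∣ N → ∀ a : K, a ≠ 0 → ∀ u ∈ A.fix,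
      algebraMap K M a * g = u ^ N → ∃ η ∈ H, ∃ X : K', X ^ N = algebraMap K K' a * η) :
    ∃ (l : K) (P : K[X]), P ≠ 0 ∧ ∀ v, (pl v).val (aeval (g - algebraMap K M l)⁻¹ P) 0 := by
  classical
  choose w j hj using above K K'
  have hg0 : g ≠ 0 := by
    have := hgK 0
    rwa [map_zero] at this
  by_contra hcon
  push Not at hcon
  -- every `η` is excluded at some place
  have h1 : ∀ η ∈ H, ∃ (v : HeightOneSpectrum (𝓞 K)) (ξ : v.adicCompletion K),
      ξ ≠ 0 ∧ V v (pl v) g ξ ∧ j v ξ ≠ algebraMap K' _ η := by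
    intro η hη
    by_contra hno
    push Not at hno
    -- a constant different from `0` and `η`
    obtain ⟨l, hl0, hlη⟩ : ∃ l : K, l ≠ 0 ∧ algebraMap K K' l ≠ η := by
      by_cases h : algebraMap K K' 1 = η
      · refine ⟨2, two_ne_zero, fun h2 => ?_⟩
        rw [← h] at h2
        have := (algebraMap K K').injective h2
        norm_num at this
      · exact ⟨1, one_ne_zero, h⟩
    have hlη' : η - algebraMap K K' l ≠ 0 := sub_ne_zero.2 (Ne.symm hlη)
    have hint : IsIntegral K (η - algebraMap K K' l)⁻¹ := Algebra.IsIntegral.isIntegral _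
    set m : K[X] := minpoly K (η - algebraMap K K' l)⁻¹ with hm
    have hm0 : m ≠ 0 := minpoly.ne_zero hint
    set P : K[X] := X * (C l * X + 1) * m with hP
    have hlin : C l * X + (1 : K[X]) ≠ 0 := by
      intro h
      have := congrArg (fun p => p.eval 0) h
      simp at this
    have hP0 : P ≠ 0 := mul_ne_zero (mul_ne_zero X_ne_zero hlin) hm0
    obtain ⟨v, hv⟩ := hcon l P hP0
    apply hv
    have hfin : ∀ τ : v.adicCompletion K, V v (pl v) (g - algebraMap K M l)⁻¹ τ →
        aeval τ P = 0 → (pl v).val (aeval (g - algebraMap K M l)⁻¹ P) 0 := by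
      intro τ h2 h3
      have h4 := Plc.val_aeval h2 P
      have h5 : aeval (algebraMap (v.adicCompletion K)
          (AlgebraicClosure (v.adicCompletion K)) τ) P = 0 := by
        rw [aeval_algebraMap_apply, h3, map_zero]
      rwa [h5] at h4
    have hgl : g - algebraMap K M l ≠ 0 := sub_ne_zero.2 (hgK l)
    by_cases hW : g ∈ (pl v).W
    · obtain ⟨ξ, hξ⟩ := V_fix (hpl v) hg hW
      have h3 := V_sub hξ (V_base (pl := pl v) l)
      have hlL : algebraMap K (v.adicCompletion K) l ≠ 0 := (_root_.map_ne_zero _).2 hl0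
      by_cases hξ0 : ξ = 0
      · subst hξ0
        have h4 : (0 : v.adicCompletion K) - algebraMap K _ l ≠ 0 := by
          rw [zero_sub]
          exact neg_ne_zero.2 hlL
        refine hfin _ (V_inv h3 h4) ?_
        rw [hP]
        simp only [map_mul, map_add, aeval_X, aeval_C, map_one]
        have : algebraMap K (v.adicCompletion K) l * (0 - algebraMap K _ l)⁻¹ + 1 = 0 := by
          rw [zero_sub]
          field_simp
          ring
        rw [this]
        ring
      · have h5 := hno v ξ hξ0 hξ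
        have h6 : ξ - algebraMap K _ l ≠ 0 := by
          intro h
          have h7 := congrArg (j v) h
          rw [map_sub, map_zero, hj, h5, ← map_sub] at h7
          exact hlη' ((_root_.map_eq_zero _).1 h7)
        refine hfin _ (V_inv h3 h6) ?_
        have h7 : j v (ξ - algebraMap K _ l)⁻¹ = algebraMap K' _ (η - algebraMap K K' l)⁻¹ := by
          rw [map_inv₀, map_sub, hj, h5, ← map_sub, ← map_inv₀]
        have h8 : aeval (ξ - algebraMap K (v.adicCompletion K) l)⁻¹ m = 0 := by
          apply (j v).injective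
          rw [map_zero, aeval_def, Polynomial.hom_eval₂, h7]
          have e : (j v).comp (algebraMap K (v.adicCompletion K)) =
              (algebraMap K' ((w v).adicCompletion K')).comp (algebraMap K K') :=
            RingHom.ext fun x => hj v x
          rw [e, ← Polynomial.hom_eval₂, ← aeval_def, hm, minpoly.aeval, map_zero]
        rw [hP, map_mul, h8, mul_zero]
    · have h2 : V v (pl v) g⁻¹ 0 := V_zero_iff.2 (Plc.val_inv_of_notMem hW)
      have h3 : V v (pl v) (g - algebraMap K M l)⁻¹ 0 := by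
        have h4 := V_sub (V_one (v := v) (pl := pl v)) (V_mul (V_base (pl := pl v) l) h2)
        rw [mul_zero, sub_zero] at h4
        have h5 := V_mul h2 (V_inv h4 one_ne_zero)
        rw [zero_mul] at h5
        have e : g⁻¹ * (1 - algebraMap K M l * g⁻¹)⁻¹ = (g - algebraMap K M l)⁻¹ := by
          rw [← mul_inv]
          congr 1
          field_simp
        rwa [e] at h5
      refine hfin 0 h3 ?_
      rw [hP]
      simp
  -- exponents
  have h2 : ∀ η ∈ H, ∃ n : ℕ, 0 < n ∧ ∀ N : ℕ, 0 < N → n ∣ N → ∀ a : K, a ≠ 0 → ∀ u ∈ A.fix,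
      algebraMap K M a * g = u ^ N → ∀ X : K', X ^ N ≠ algebraMap K K' a * η := by
    intro η hη
    obtain ⟨v, ξ, hξ0, hξ, hne⟩ := h1 η hη
    have hη0 := hH η hη
    have hηL : algebraMap K' ((w v).adicCompletion K') η ≠ 0 := (_root_.map_ne_zero _).2 hη0
    have hjξ : j v ξ ≠ 0 := (_root_.map_ne_zero _).2 hξ0
    obtain ⟨n, hn, hnp⟩ := not_pow (w v) (η := j v ξ / algebraMap K' _ η)
      (div_ne_zero hjξ hηL) (fun h => hne ((div_eq_one_iff_eq hηL).1 h))
    refine ⟨n, hn, fun N hN hnN a ha u hu hau X hX => ?_⟩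
    obtain ⟨q, rfl⟩ := hnN
    have h3 : V v (pl v) (u ^ (n * q)) (algebraMap K _ a * ξ) := by
      rw [← hau]
      exact V_mul (V_base a) hξ
    obtain ⟨ζ, -, hζ⟩ := V_root (hpl v) hu hN h3
    have haK' : algebraMap K K' a ≠ 0 := (_root_.map_ne_zero _).2 ha
    have haL : algebraMap K' ((w v).adicCompletion K') (algebraMap K K' a) ≠ 0 :=
      (_root_.map_ne_zero _).2 haK'
    have h4 : (j v ζ) ^ (n * q) = algebraMap K' _ (algebraMap K K' a) * j v ξ := by
      rw [← map_pow, hζ, map_mul, hj]
    have h5 : (algebraMap K' ((w v).adicCompletion K') X) ^ (n * q) =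
        algebraMap K' _ (algebraMap K K' a) * algebraMap K' _ η := by
      rw [← map_pow, hX, map_mul]
    refine hnp ((j v ζ / algebraMap K' _ X) ^ q) ?_
    rw [← pow_mul, mul_comm q n, div_pow, h4, h5]
    field_simp
  choose! n hn hnN using h2
  set N : ℕ := D * ∏ η ∈ H, n η with hN
  have hNpos : 0 < N := Nat.mul_pos hD (Finset.prod_pos fun η hη => hn η hη)
  obtain ⟨c, hc, u, hu, hgu⟩ := A.kummer hg hg0 hNpos
  have hcM : algebraMap K M c ≠ 0 := (_root_.map_ne_zero _).2 hc
  have hau : algebraMap K M c⁻¹ * g = u ^ N := by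
    rw [hgu, map_inv₀]
    field_simp
  obtain ⟨η, hη, X, hX⟩ := hyp N hNpos (Dvd.intro _ rfl) c⁻¹ (inv_ne_zero hc) u hu hau
  exact hnN η hη N hNpos ((Finset.dvd_prod_of_mem n hη).trans (Dvd.intro_left _ rfl)) c⁻¹
    (inv_ne_zero hc) u hu hau X hX

end core

end Pool.Agent.Helper39.BS
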