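import Pool.Graph.R_seed8.Y682.Lcl

/-!
# Non-squares in completions, and weak approximation
-/

set_option autoImplicit false

open NumberField IsDedekindDomain
open Pool.Agent.Y682

namespace Pool.Agent.Helper39.BS

variable {K : Type} [Field K] [NumberField K]

/-- there is a non-square in a completion -/
lemma ns_exists (v : HeightOneSpectrum (𝓞 K)) :
    ∃ t : v.adicCompletion K, ∀ y, y ^ 2 ≠ t := by
  obtain ⟨π, hπ⟩ := v.valuation_exists_uniformizer K
  refine ⟨algebraMap K _ π, fun y hy => ?_⟩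
  have h1 := congrArg (vv v) hy
  rw [vv_coe, hπ, map_pow] at h1
  have hy0 : vv v y ≠ 0 := by
    intro h0
    rw [h0, zero_pow two_ne_zero] at h1
    exact WithZero.exp_ne_zero h1.symm
  have h2 := congrArg WithZero.log h1
  rw [WithZero.log_pow, WithZero.log_exp] at h2
  simp only [nsmul_eq_mul] at h2
  have : (2 : ℤ) ∣ -1 := ⟨WithZero.log (vv v y), by rw [← h2]; norm_num⟩
  omega

/-- the non-squares form an open set -/
lemma ns_open (v : HeightOneSpectrum (𝓞 K)) :
    IsOpen {t : v.adicCompletion K | ∀ y, y ^ 2 ≠ t} := by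
  rw [Metric.isOpen_iff]
  intro t ht
  have ht' : ∀ y, y ^ 2 ≠ t := ht
  have ht0 : t ≠ 0 := fun h => ht' 0 (by rw [h]; exact zero_pow two_ne_zero)
  have hc : CharZero (v.adicCompletion K) :=
    charZero_of_injective_algebraMap (algebraMap K (v.adicCompletion K)).injective
  have h4 : (4 : v.adicCompletion K) ≠ 0 := by norm_num
  refine ⟨‖4 * t‖, norm_pos_iff.2 (mul_ne_zero h4 ht0), fun u hu y hy => ?_⟩
  rw [Metric.mem_ball, dist_eq_norm, ← not_le, norm_le_iff, not_le, map_mul] at hu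
  have hvt : vv v t ≠ 0 := (Valuation.ne_zero_iff _).2 ht0
  obtain ⟨w, hw⟩ := exists_sqrt v ((u - t) / t) (by
    rw [map_div₀]
    exact (div_lt_iff₀ (zero_lt_iff.2 hvt)).2 hu)
  have hw0 : w ≠ 0 := by
    rintro rfl
    have h1 : u = 0 := by
      field_simp at hw
      linear_combination -hw
    have h2 : vv v (u - t) < vv v 4 * vv v t := hu
    rw [h1, zero_sub, Valuation.map_neg] at h2
    have h3 : vv v (4 : v.adicCompletion K) ≤ 1 := by
      have : (4 : v.adicCompletion K) = algebraMap K _ (algebraMap (𝓞 K) K 4) := by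
        simp only [map_ofNat]
      rw [this, vv_coe]
      exact HeightOneSpectrum.valuation_le_one v 4
    exact absurd h2 (not_lt.2 (mul_le_of_le_one_left' h3))
  refine ht' (y / w) ?_
  rw [div_pow, hy, hw]
  have h5 : (1 : v.adicCompletion K) + (u - t) / t = u / t := by
    field_simp
    ring
  have hu0 : u ≠ 0 := by
    rintro rfl
    rw [h5, zero_div] at hw
    exact hw0 (pow_eq_zero_iff two_ne_zero |>.1 hw)
  rw [h5]
  field_simp

lemma val_sub_le (v : HeightOneSpectrum (𝓞 K)) (y : 𝓞 K) (e : ℕ) (h : y ∈ v.asIdeal ^ e) :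
    v.valuation K (algebraMap (𝓞 K) K y) ≤ WithZero.exp (-(e : ℤ)) := by
  rw [HeightOneSpectrum.valuation_of_algebraMap]
  exact (v.intValuation_le_pow_iff_mem y e).2 h

/-- **Weak approximation** at finitely many places. -/
theorem weak {ι : Type} (S : Finset ι) (v : ι → HeightOneSpectrum (𝓞 K))
    (hv : ∀ i ∈ S, ∀ j ∈ S, i ≠ j → v i ≠ v j)
    (U : (i : ι) → Set ((v i).adicCompletion K)) (hU : ∀ i ∈ S, IsOpen (U i))
    (hne : ∀ i ∈ S, (U i).Nonempty) :
    ∃ b : K, ∀ i ∈ S, algebraMap K ((v i).adicCompletion K) b ∈ U i := by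
  classical
  -- approximations by elements of `K`
  have h1 : ∀ i : S, ∃ (k : K) (γ : WithZero (Multiplicative ℤ)), γ ≠ 0 ∧
      ∀ b : K, (v i).valuation K (b - k) ≤ γ →
        algebraMap K ((v i).adicCompletion K) b ∈ U i := by
    rintro ⟨i, hi⟩
    obtain ⟨k, hk⟩ := (HeightOneSpectrum.denseRange_algebraMap K (v i)).exists_mem_open (hU i hi)
      (hne i hi)
    obtain ⟨ε, hε, hball⟩ := Metric.isOpen_iff.1 (hU i hi) _ hk
    obtain ⟨π, hπ⟩ := (v i).valuation_exists_uniformizer K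
    have hπn : ‖algebraMap K ((v i).adicCompletion K) π‖ < 1 := by
      rw [← norm_one (α := (v i).adicCompletion K), ← not_le, norm_le_iff, not_le, map_one,
        vv_coe, hπ]
      rw [← WithZero.exp_zero]
      exact WithZero.exp_lt_exp.2 (by norm_num)
    obtain ⟨n, hn⟩ := exists_pow_lt_of_lt_one hε hπn
    have hπ0 : π ≠ 0 := by
      rintro rfl
      rw [map_zero] at hπ
      exact WithZero.exp_ne_zero hπ.symm
    refine ⟨k, (v i).valuation K (π ^ n), (Valuation.ne_zero_iff _).2 (pow_ne_zero n hπ0),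
      fun b hb => hball ?_⟩
    rw [Metric.mem_ball, dist_eq_norm]
    refine lt_of_le_of_lt ?_ hn
    rw [← norm_pow, norm_le_iff, ← map_sub, ← map_pow, vv_coe, vv_coe]
    exact hb
  choose k γ hγ hk using h1
  -- common denominators
  obtain ⟨d, hd⟩ := IsLocalization.exist_integer_multiples_of_finset (nonZeroDivisors (𝓞 K))
    (Finset.univ.image k)
  have hd0 : algebraMap (𝓞 K) K d ≠ 0 := by
    rw [map_ne_zero_iff _ (FaithfulSMul.algebraMap_injective (𝓞 K) K)]
    exact nonZeroDivisors.ne_zero d.2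
  have h2 : ∀ i : S, ∃ n : 𝓞 K, algebraMap (𝓞 K) K n = algebraMap (𝓞 K) K d * k i := by
    intro i
    obtain ⟨n, hn⟩ := hd (k i) (Finset.mem_image_of_mem _ (Finset.mem_univ i))
    exact ⟨n, by rw [hn, Algebra.smul_def]⟩
  choose n hn using h2
  -- exponents
  have h3 : ∀ i : S, ∃ e : ℕ, WithZero.exp (-(e : ℤ)) ≤ γ i * (v i).valuation K (algebraMap (𝓞 K) K d) := by
    intro i
    have h0 : γ i * (v i).valuation K (algebraMap (𝓞 K) K d) ≠ 0 :=
      mul_ne_zero (hγ i) ((Valuation.ne_zero_iff _).2 hd0)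
    refine ⟨(-(WithZero.log (γ i * (v i).valuation K (algebraMap (𝓞 K) K d)))).toNat, ?_⟩
    rw [← WithZero.le_log_iff_exp_le h0]
    have := Int.self_le_toNat (-(WithZero.log (γ i * (v i).valuation K (algebraMap (𝓞 K) K d))))
    omega
  choose e he using h3
  obtain ⟨y, hy⟩ := IsDedekindDomain.exists_forall_sub_mem_ideal (s := S)
    (fun i => (v i).asIdeal) (fun i => if h : i ∈ S then e ⟨i, h⟩ else 0)
    (fun i _ => (v i).prime)
    (fun i hi j hj hij h => hv i hi j hj hij (HeightOneSpectrum.ext h)) n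
  refine ⟨algebraMap (𝓞 K) K y / algebraMap (𝓞 K) K d, fun i hi => hk ⟨i, hi⟩ _ ?_⟩
  have h4 := hy i hi
  rw [dif_pos hi] at h4
  have h5 := (val_sub_le (v i) _ _ h4).trans (he ⟨i, hi⟩)
  have h6 : algebraMap (𝓞 K) K y / algebraMap (𝓞 K) K d - k ⟨i, hi⟩ =
      algebraMap (𝓞 K) K (y - n ⟨i, hi⟩) / algebraMap (𝓞 K) K d := by
    rw [map_sub, hn, eq_div_iff hd0, sub_mul, div_mul_cancel₀ _ hd0]
    ring
  rw [h6, map_div₀]
  exact (div_le_iff₀ (zero_lt_iff.2 ((Valuation.ne_zero_iff _).2 hd0))).2 h5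

end Pool.Agent.Helper39.BS
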