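import Pool.Agent.Helper39.BS.Sep
import Pool.Graph.R_seed8.H723R3.EuclidLocal

/-!
# Powers in the completions
-/

set_option autoImplicit false

open NumberField IsDedekindDomain
open Pool.Agent.Y682 Pool.Agent.TH954

namespace Pool.Agent.Helper39.BS

variable {K : Type} [Field K] [NumberField K]

lemma vv_pow_sub (v : HeightOneSpectrum (𝓞 K)) {x y : v.adicCompletion K} (hx : vv v x ≤ 1)
    (hy : vv v y ≤ 1) (n : ℕ) : vv v (x ^ n - y ^ n) ≤ vv v (x - y) := by
  induction n with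
  | zero => simp
  | succ n ih =>
    have e : x ^ (n + 1) - y ^ (n + 1) = x ^ n * (x - y) + (x ^ n - y ^ n) * y := by ring
    rw [e]
    refine (Valuation.map_add _ _ _).trans (max_le ?_ ?_)
    · rw [map_mul, map_pow]
      exact mul_le_of_le_one_left' (pow_le_one₀ zero_le hx)
    · rw [map_mul]
      exact (mul_le_of_le_one_right' hy).trans ih

/-- the units of the completion have powers close to one -/
lemma pow_near (v : HeightOneSpectrum (𝓞 K)) (e : ℕ) : ∃ n : ℕ, 0 < n ∧
    ∀ y : v.adicCompletion K, vv v y = 1 → vv v (y ^ n - 1) ≤ WithZero.exp (-(e : ℤ)) := by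
  have hne : v.asIdeal ^ e ≠ ⊥ := pow_ne_zero e v.ne_bot
  have hfin : Finite (𝓞 K ⧸ v.asIdeal ^ e) := Ideal.finiteQuotientOfFreeOfNeBot _ hne
  refine ⟨Nat.card (𝓞 K ⧸ v.asIdeal ^ e)ˣ, Nat.card_pos, fun y hy => ?_⟩
  set n := Nat.card (𝓞 K ⧸ v.asIdeal ^ e)ˣ with hn
  have hexp : (WithZero.exp (-(e : ℤ))) ≤ 1 := by
    rw [← WithZero.exp_zero]
    exact WithZero.exp_le_exp.2 (by omega)
  obtain ⟨r, hr⟩ := Pool.Agent.H723R3.exists_approx_int v (ξ := y)
    ((HeightOneSpectrum.mem_adicCompletionIntegers _ _ _).2 hy.le)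
    (Units.mk0 (WithZero.exp (-(e : ℤ))) WithZero.exp_ne_zero)
  rw [Units.val_mk0] at hr
  have hrn : ∀ z : 𝓞 K, algebraMap (𝓞 K) (v.adicCompletion K) z =
      algebraMap K (v.adicCompletion K) (algebraMap (𝓞 K) K z) := fun z => by
    rw [← IsScalarTower.algebraMap_apply]
  have hr1 : vv v (algebraMap (𝓞 K) (v.adicCompletion K) r) = 1 := by
    have h1 : algebraMap (𝓞 K) (v.adicCompletion K) r =
        (algebraMap (𝓞 K) (v.adicCompletion K) r - y) + y := by ring
    have h2 : vv v (algebraMap (𝓞 K) (v.adicCompletion K) r - y) < vv v y := by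
      rw [hy]
      exact lt_of_lt_of_le hr hexp
    rw [h1, Valuation.map_add_eq_of_lt_right _ h2, hy]
  have hrP : r ∉ v.asIdeal := by
    intro h
    have h2 : v.valuation K (algebraMap (𝓞 K) K r) ≤ WithZero.exp (-((1 : ℕ) : ℤ)) :=
      val_sub_le v r 1 (by rwa [pow_one])
    rw [hrn, vv_coe] at hr1
    rw [hr1, ← WithZero.exp_zero, WithZero.exp_le_exp] at h2
    norm_num at h2
  have hcop : IsCoprime (Ideal.span {r}) (v.asIdeal ^ e) := by
    apply IsCoprime.pow_right
    rw [Ideal.isCoprime_iff_sup_eq]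
    by_contra hne
    have h3 := v.isMaximal.eq_of_le hne le_sup_right
    apply hrP
    rw [h3]
    exact Ideal.mem_sup_left (Ideal.mem_span_singleton_self r)
  obtain ⟨i, hi, j, hj, hij⟩ := Ideal.isCoprime_iff_exists.1 hcop
  obtain ⟨s, rfl⟩ := Ideal.mem_span_singleton'.1 hi
  have hu : IsUnit (Ideal.Quotient.mk (v.asIdeal ^ e) r) := by
    refine IsUnit.of_mul_eq_one (Ideal.Quotient.mk (v.asIdeal ^ e) s) ?_
    rw [← map_mul, ← map_one (Ideal.Quotient.mk (v.asIdeal ^ e)), Ideal.Quotient.mk_eq_mk_iff_sub_mem]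
    have : r * s - 1 = -j := by rw [← hij]; ring
    rw [this]
    exact neg_mem hj
  obtain ⟨u, hu⟩ := hu
  have h4 : (Ideal.Quotient.mk (v.asIdeal ^ e) (r ^ n)) = 1 := by
    rw [map_pow, ← hu, ← Units.val_pow_eq_pow_val, hn, pow_card_eq_one', Units.val_one]
  have h5 : r ^ n - 1 ∈ v.asIdeal ^ e := by
    rw [← Ideal.Quotient.mk_eq_mk_iff_sub_mem, map_one]
    exact h4
  have h6 := val_sub_le v _ _ h5
  have h7 : y ^ n - 1 = (y ^ n - algebraMap (𝓞 K) (v.adicCompletion K) r ^ n) +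
      algebraMap (𝓞 K) (v.adicCompletion K) (r ^ n - 1) := by
    rw [map_sub, map_pow, map_one]
    ring
  rw [h7]
  refine (Valuation.map_add _ _ _).trans (max_le ?_ ?_)
  · refine (vv_pow_sub v hy.le hr1.le n).trans ?_
    rw [Valuation.map_sub_swap]
    exact hr.le
  · rw [hrn, vv_coe]
    exact h6

/-- **An element other than one is not divisible in the multiplicative group of the completion.** -/
theorem not_pow (v : HeightOneSpectrum (𝓞 K)) {η : v.adicCompletion K} (h0 : η ≠ 0) (h1 : η ≠ 1) :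
    ∃ n : ℕ, 0 < n ∧ ∀ y : v.adicCompletion K, y ^ n ≠ η := by
  by_contra hcon
  push Not at hcon
  have hv0 : vv v η ≠ 0 := (Valuation.ne_zero_iff _).2 h0
  -- the valuation
  have hlog : WithZero.log (vv v η) = 0 := by
    by_contra hne
    obtain ⟨y, hy⟩ := hcon ((WithZero.log (vv v η)).natAbs + 1) (Nat.succ_pos _)
    have h2 := congrArg (fun z => WithZero.log (vv v z)) hy
    simp only [map_pow] at h2
    rw [WithZero.log_pow, nsmul_eq_mul] at h2
    have h3 : (((WithZero.log (vv v η)).natAbs + 1 : ℕ) : ℤ) ∣ WithZero.log (vv v η) :=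
      ⟨_, h2.symm⟩
    have h4 := Int.natAbs_le_of_dvd_ne_zero h3 hne
    simp only [Int.natAbs_natCast] at h4
    omega
  have hv1 : vv v η = 1 := by
    rw [← WithZero.exp_log hv0, hlog, WithZero.exp_zero]
  have hv2 : vv v (η - 1) ≠ 0 := (Valuation.ne_zero_iff _).2 (sub_ne_zero.2 h1)
  set e : ℕ := (1 - WithZero.log (vv v (η - 1))).toNat with he
  obtain ⟨n, hn, hnear⟩ := pow_near v e
  obtain ⟨y, hy⟩ := hcon n hn
  have hy1 : vv v y = 1 := by
    have h2 := congrArg (vv v) hy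
    rw [map_pow, hv1] at h2
    exact (pow_eq_one_iff_of_nonneg zero_le hn.ne').1 h2
  have h5 := hnear y hy1
  rw [hy, ← WithZero.log_le_iff_le_exp hv2] at h5
  have h6 := Int.self_le_toNat (1 - WithZero.log (vv v (η - 1)))
  omega

end Pool.Agent.Helper39.BS
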