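import Pool.Agent.Helper39.BS.Loc
import Pool.Graph.R_seed8.TH954.SFix
import Pool.Graph.R_seed8.TH954.SVal

/-!
# Separation of a section from finitely many points by double coverings
-/

set_option autoImplicit false

open NumberField IsDedekindDomain
open Pool.Agent.Y682 Pool.Agent.TH954

namespace Pool.Agent.Helper39.BS

lemma infinite_places (K : Type) [Field K] [NumberField K] : Infinite (HeightOneSpectrum (𝓞 K)) := by
  have key : ∀ p : Nat.Primes, ∃ v : HeightOneSpectrum (𝓞 K), v.asIdeal.comap (algebraMap ℤ (𝓞 K)) =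
      Ideal.span {((p : ℕ) : ℤ)} := by
    intro p
    have hp : Prime (((p : ℕ) : ℤ)) := Nat.prime_iff_prime_int.1 p.2
    have hmax : (Ideal.span {((p : ℕ) : ℤ)}).IsMaximal :=
      PrincipalIdealRing.isMaximal_of_irreducible hp.irreducible
    obtain ⟨Q, hQ, h⟩ := Ideal.exists_ideal_over_maximal_of_isIntegral (S := 𝓞 K)
      (Ideal.span {((p : ℕ) : ℤ)}) (by
        rw [(RingHom.injective_iff_ker_eq_bot _).1 (FaithfulSMul.algebraMap_injective ℤ (𝓞 K))]
        exact bot_le)
    refine ⟨⟨Q, hQ.isPrime, ?_⟩, h⟩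
    rintro rfl
    have h1 : (Ideal.span {((p : ℕ) : ℤ)} : Ideal ℤ) = ⊥ := by
      rw [← h]
      rw [← RingHom.ker_eq_comap_bot, (RingHom.injective_iff_ker_eq_bot _).1 (FaithfulSMul.algebraMap_injective ℤ (𝓞 K))]
    rw [Ideal.span_singleton_eq_bot] at h1
    exact hp.ne_zero h1
  choose f hf using key
  refine Infinite.of_injective f fun p q h => ?_
  have h1 := (hf p).symm.trans ((congrArg (fun v => v.asIdeal.comap (algebraMap ℤ (𝓞 K))) h).trans (hf q))
  rw [Ideal.span_singleton_eq_span_singleton] at h1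
  have h2 := Int.associated_iff_natAbs.1 h1
  apply Subtype.ext
  simpa using h2

/-- distinct representatives, infinite sets -/
lemma reps_inf {ι P : Type} [Nonempty P] (T : Finset ι) (A : ι → Set P)
    (h : ∀ i ∈ T, (A i).Infinite) (S : Set P) (hS : S.Finite) :
    ∃ w : ι → P, (∀ i ∈ T, ∀ j ∈ T, i ≠ j → w i ≠ w j) ∧ ∀ i ∈ T, w i ∈ A i ∧ w i ∉ S := by
  classical
  induction T using Finset.induction_on with
  | empty =>
    obtain ⟨p⟩ := ‹Nonempty P›
    exact ⟨fun _ => p, by simp, by simp⟩
  | insert a T ha ih =>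
    obtain ⟨w, hw1, hw2⟩ := ih fun i hi => h i (Finset.mem_insert_of_mem hi)
    obtain ⟨p, hp, hpn⟩ := ((h a (Finset.mem_insert_self a T)).sdiff
      (hS.union (Set.Finite.image w T.finite_toSet))).nonempty
    rw [Set.mem_union, not_or] at hpn
    have hpw : ∀ j ∈ T, w j ≠ p := fun j hj e => hpn.2 ⟨j, hj, e⟩
    refine ⟨fun i => if i = a then p else w i, fun i hi j hj hij => ?_, fun i hi => ?_⟩
    · rw [Finset.mem_insert] at hi hj
      by_cases hia : i = a
      · have hja : j ≠ a := fun e => hij (hia.trans e.symm)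
        simp only [hia, if_true, if_neg hja]
        exact (hpw j (hj.resolve_left hja)).symm
      · by_cases hja : j = a
        · simp only [hja, if_true, if_neg hia]
          exact hpw i (hi.resolve_left hia)
        · simp only [if_neg hia, if_neg hja]
          exact hw1 i (hi.resolve_left hia) j (hj.resolve_left hja) hij
    · rw [Finset.mem_insert] at hi
      by_cases hia : i = a
      · simp only [hia, if_true]
        exact ⟨hp, hpn.1⟩
      · simp only [if_neg hia]
        exact hw2 i (hi.resolve_left hia)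

/-- distinct representatives for sets the pairwise unions of which are everything -/
lemma reps {ι P : Type} [Infinite P] (T : Finset ι) (A : ι → Set P)
    (h : ∀ i ∈ T, (A i).Nonempty)
    (hu : ∀ i ∈ T, ∀ j ∈ T, i ≠ j → ∀ p, p ∈ A i ∨ p ∈ A j) :
    ∃ w : ι → P, (∀ i ∈ T, ∀ j ∈ T, i ≠ j → w i ≠ w j) ∧ ∀ i ∈ T, w i ∈ A i := by
  classical
  by_cases hf : ∃ a ∈ T, (A a).Finite
  · obtain ⟨a, haT, ha⟩ := hf
    obtain ⟨p, hp⟩ := h a haT
    have hinf : ∀ i ∈ T.erase a, (A i).Infinite := by
      intro i hi hif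
      rw [Finset.mem_erase] at hi
      have : (Set.univ : Set P).Finite := (hif.union ha).subset fun p _ => hu i hi.2 a haT hi.1 p
      exact Set.infinite_univ this
    obtain ⟨w, hw1, hw2⟩ := reps_inf (T.erase a) A hinf {p} (Set.finite_singleton p)
    refine ⟨fun i => if i = a then p else w i, fun i hi j hj hij => ?_, fun i hi => ?_⟩
    · by_cases hia : i = a
      · have hja : j ≠ a := fun e => hij (hia.trans e.symm)
        simp only [hia, if_true, if_neg hja]
        exact fun e => (hw2 j (Finset.mem_erase.2 ⟨hja, hj⟩)).2 e.symm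
      · by_cases hja : j = a
        · simp only [hja, if_true, if_neg hia]
          exact (hw2 i (Finset.mem_erase.2 ⟨hia, hi⟩)).2
        · simp only [if_neg hia, if_neg hja]
          exact hw1 i (Finset.mem_erase.2 ⟨hia, hi⟩) j (Finset.mem_erase.2 ⟨hja, hj⟩) hij
    · by_cases hia : i = a
      · simp only [hia, if_true]
        exact hp
      · simp only [if_neg hia]
        exact (hw2 i (Finset.mem_erase.2 ⟨hia, hi⟩)).1
  · push Not at hf
    obtain ⟨w, hw1, hw2⟩ := reps_inf T A hf ∅ Set.finite_empty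
    exact ⟨w, hw1, fun i hi => (hw2 i hi).1⟩

section local_

variable {K : Type} [Field K] [NumberField K] {M : Type} [Field M] [Algebra K M]
  (A : SAct K M) (v : HeightOneSpectrum (𝓞 K))
  (pl : Plc K M (AlgebraicClosure (v.adicCompletion K)))

/-- the place has the value `ξ`, an element of the completion, at `x` -/
def V (x : M) (ξ : v.adicCompletion K) : Prop :=
  pl.val x (algebraMap (v.adicCompletion K) (AlgebraicClosure (v.adicCompletion K)) ξ)

variable {A v pl}

lemma V_base (b : K) : V v pl (algebraMap K M b) (algebraMap K (v.adicCompletion K) b) := by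
  have h := Plc.val_alg (pl := pl) b
  rw [IsScalarTower.algebraMap_apply K (v.adicCompletion K)
    (AlgebraicClosure (v.adicCompletion K))] at h
  exact h

lemma V_mul {x y : M} {ξ η : v.adicCompletion K} (h : V v pl x ξ) (h' : V v pl y η) :
    V v pl (x * y) (ξ * η) := by
  have := Plc.val.mul h h'
  rwa [← map_mul] at this

lemma V_sub {x y : M} {ξ η : v.adicCompletion K} (h : V v pl x ξ) (h' : V v pl y η) :
    V v pl (x - y) (ξ - η) := by
  have := Plc.val.sub h h'
  rwa [← map_sub] at this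

lemma V_unique {x : M} {ξ η : v.adicCompletion K} (h : V v pl x ξ) (h' : V v pl x η) : ξ = η :=
  (algebraMap (v.adicCompletion K) (AlgebraicClosure (v.adicCompletion K))).injective
    (Plc.val.unique h h')

lemma V_fix (hpl : GeoPlc A pl) {x : M} (hx : x ∈ A.fix) (hxW : x ∈ pl.W) :
    ∃ ξ, V v pl x ξ := by
  have hc : CharZero (v.adicCompletion K) :=
    charZero_of_injective_algebraMap (algebraMap K (v.adicCompletion K)).injective
  obtain ⟨z, hz⟩ := value_base A hpl hx hxW
  exact ⟨z, hxW, hz.symm⟩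

/-- if `z ^ 2` has a value, `z` has one -/
lemma V_sqrt (hpl : GeoPlc A pl) {z : M} (hz : z ∈ A.fix) {η : v.adicCompletion K}
    (h : V v pl (z ^ 2) η) : ∃ ζ, V v pl z ζ ∧ ζ ^ 2 = η := by
  have hW : z ∈ pl.W := Plc.mem_of_pow_mem two_pos h.mem
  obtain ⟨ζ, hζ⟩ := V_fix hpl hz hW
  refine ⟨ζ, hζ, V_unique (pl := pl) (x := z ^ 2) ?_ h⟩
  rw [sq, sq]
  exact V_mul hζ hζ

lemma V_div (b : K) {x : M} {ξ : v.adicCompletion K} (h : V v pl x ξ) :
    V v pl (x / algebraMap K M b) (ξ / algebraMap K _ b) := by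
  rw [div_eq_mul_inv, div_eq_mul_inv, ← map_inv₀, ← map_inv₀]
  exact V_mul h (V_base _)

/-- the class of `x - b` at a place where `x` is finite -/
lemma class_fin (hpl : GeoPlc A pl) {x : M} {ξ : v.adicCompletion K} (hξ : V v pl x ξ)
    {b c : K} (hc : c ≠ 0) {z : M} (hz : z ∈ A.fix)
    (h : x - algebraMap K M b = algebraMap K M c * z ^ 2) :
    ∃ ζ : v.adicCompletion K, ξ - algebraMap K _ b = algebraMap K _ c * ζ ^ 2 := by
  have hcM : algebraMap K M c ≠ 0 := (map_ne_zero _).2 hc
  have hcL : algebraMap K (v.adicCompletion K) c ≠ 0 := (map_ne_zero _).2 hc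
  have h1 : V v pl (z ^ 2) ((ξ - algebraMap K _ b) / algebraMap K _ c) := by
    have e : z ^ 2 = (x - algebraMap K M b) / algebraMap K M c := by
      rw [h]
      field_simp
    rw [e]
    exact V_div c (V_sub hξ (V_base b))
  obtain ⟨ζ, -, hζ⟩ := V_sqrt hpl hz h1
  refine ⟨ζ, ?_⟩
  rw [hζ]
  field_simp

/-- the classes of `x - b` and `x` at a place where `x` is infinite -/
lemma class_inf (hpl : GeoPlc A pl) {x : M} (hx0 : x ≠ 0) (hx : V v pl x⁻¹ 0)
    {b c c0 : K} (hc : c ≠ 0) (hc0 : c0 ≠ 0) {z z0 : M} (hz : z ∈ A.fix) (hz0 : z0 ∈ A.fix)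
    (h : x - algebraMap K M b = algebraMap K M c * z ^ 2)
    (h0 : x = algebraMap K M c0 * z0 ^ 2) :
    ∃ ω : v.adicCompletion K, algebraMap K _ c0 = algebraMap K _ c * ω ^ 2 := by
  have hcM : algebraMap K M c ≠ 0 := (map_ne_zero _).2 hc
  have hc0M : algebraMap K M c0 ≠ 0 := (map_ne_zero _).2 hc0
  have hcL : algebraMap K (v.adicCompletion K) c ≠ 0 := (map_ne_zero _).2 hc
  have hz00 : z0 ≠ 0 := by
    rintro rfl
    rw [zero_pow two_ne_zero, mul_zero] at h0
    exact hx0 h0
  have h1 : V v pl (1 - algebraMap K M b * x⁻¹) (1 - algebraMap K _ b * 0) := by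
    have e1 : (1 : M) = algebraMap K M 1 := (map_one _).symm
    have e2 : (1 : v.adicCompletion K) = algebraMap K _ 1 := (map_one _).symm
    rw [e1, e2]
    exact V_sub (V_base 1) (V_mul (V_base b) hx)
  have h2 : V v pl ((z / z0) ^ 2) (algebraMap K _ c0 / algebraMap K _ c) := by
    have e : (z / z0) ^ 2 = (1 - algebraMap K M b * x⁻¹) * algebraMap K M (c0 / c) := by
      rw [map_div₀]
      have e3 : (1 - algebraMap K M b * x⁻¹) = (algebraMap K M c * z ^ 2) / x := by
        rw [← h]
        field_simp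
      rw [e3]
      have e4 : (algebraMap K M c * z ^ 2) / x * (algebraMap K M c0 / algebraMap K M c) =
          (algebraMap K M c * z ^ 2) / (algebraMap K M c0 * z0 ^ 2) *
            (algebraMap K M c0 / algebraMap K M c) := by rw [← h0]
      rw [e4]
      field_simp
    have h3 := V_mul h1 (V_base (c0 / c))
    rw [e]
    rw [map_div₀ (algebraMap K (v.adicCompletion K)), mul_zero, sub_zero, one_mul] at h3
    exact h3
  obtain ⟨ω, -, hω⟩ := V_sqrt hpl (div_mem hz hz0) h2
  refine ⟨ω, ?_⟩
  rw [hω]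
  field_simp

/-- the open set for a rational number `e`, which is not the value of `x` -/
lemma open_some (hpl : GeoPlc A pl) {x : M} (hx : x ∈ A.fix) (hx0 : x ≠ 0) {e : K}
    (he : ¬ V v pl (x - algebraMap K M e) 0)
    {c0 : K} (hc0 : c0 ≠ 0) {z0 : M} (hz0 : z0 ∈ A.fix) (h0 : x = algebraMap K M c0 * z0 ^ 2) :
    ∃ U : Set (v.adicCompletion K), IsOpen U ∧ U.Nonempty ∧
      ∀ b : K, algebraMap K (v.adicCompletion K) b ∈ U → ∀ c : K, c ≠ 0 → ∀ z ∈ A.fix,
        x - algebraMap K M b = algebraMap K M c * z ^ 2 → ∀ y : K, e - b ≠ c * y ^ 2 := by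
  obtain ⟨t, ht⟩ := ns_exists v
  by_cases hW : x ∈ pl.W
  · obtain ⟨ξ, hξ⟩ := V_fix hpl hx hW
    have hne : ξ - algebraMap K _ e ≠ 0 := by
      intro h
      apply he
      rw [← h]
      exact V_sub hξ (V_base e)
    refine ⟨{β | ∀ y, y ^ 2 ≠ (algebraMap K _ e - β) * (ξ - β)}, ?_, ?_, ?_⟩
    · exact (ns_open v).preimage ((continuous_const.sub continuous_id).mul
        (continuous_const.sub continuous_id))
    · have ht1 : 1 - t ≠ 0 := by
        intro h
        exact ht 1 (by linear_combination h)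
      refine ⟨(algebraMap K _ e - t * ξ) / (1 - t), fun y hy => ?_⟩
      refine ht (y / ((ξ - algebraMap K _ e) / (1 - t))) ?_
      have e1 : (algebraMap K (v.adicCompletion K) e - (algebraMap K _ e - t * ξ) / (1 - t)) *
          (ξ - (algebraMap K _ e - t * ξ) / (1 - t)) =
          t * ((ξ - algebraMap K _ e) / (1 - t)) ^ 2 := by
        field_simp
        ring
      rw [e1] at hy
      rw [div_pow, hy]
      exact mul_div_cancel_right₀ _ (pow_ne_zero 2 (div_ne_zero hne ht1))
    · intro b hb c hc z hz hbz y hy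
      obtain ⟨ζ, hζ⟩ := class_fin hpl hξ hc hz hbz
      refine hb (algebraMap K _ c * algebraMap K _ y * ζ) ?_
      have e2 : algebraMap K (v.adicCompletion K) e - algebraMap K _ b =
          algebraMap K _ c * algebraMap K _ y ^ 2 := by
        rw [← map_sub, hy, map_mul, map_pow]
      rw [e2, hζ]
      ring
  · have hx' : V v pl x⁻¹ 0 := by
      have := Plc.val_inv_of_notMem (pl := pl) hW
      unfold V
      rwa [map_zero]
    have hc0L : algebraMap K (v.adicCompletion K) c0 ≠ 0 := (map_ne_zero _).2 hc0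
    refine ⟨{β | ∀ y, y ^ 2 ≠ (algebraMap K _ e - β) * algebraMap K _ c0}, ?_, ?_, ?_⟩
    · exact (ns_open v).preimage ((continuous_const.sub continuous_id).mul continuous_const)
    · refine ⟨algebraMap K _ e - t / algebraMap K _ c0, fun y hy => ht y ?_⟩
      rw [hy]
      field_simp
      ring
    · intro b hb c hc z hz hbz y hy
      obtain ⟨ω, hω⟩ := class_inf hpl hx0 hx' hc hc0 hz hz0 hbz h0
      refine hb (algebraMap K _ c * ω * algebraMap K _ y) ?_
      have e2 : algebraMap K (v.adicCompletion K) e - algebraMap K _ b =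
          algebraMap K _ c * algebraMap K _ y ^ 2 := by
        rw [← map_sub, hy, map_mul, map_pow]
      rw [e2, hω]
      ring

/-- the open set for infinity -/
lemma open_none (hpl : GeoPlc A pl) {x : M} (hx : x ∈ A.fix)
    (he : ¬ V v pl x⁻¹ 0) {κ : K} (hκ : κ ≠ 0) :
    ∃ U : Set (v.adicCompletion K), IsOpen U ∧ U.Nonempty ∧
      ∀ b : K, algebraMap K (v.adicCompletion K) b ∈ U → ∀ c : K, c ≠ 0 → ∀ z ∈ A.fix,
        x - algebraMap K M b = algebraMap K M c * z ^ 2 → ∀ r : K, r ^ 2 ≠ κ * c := by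
  obtain ⟨t, ht⟩ := ns_exists v
  have hκL : algebraMap K (v.adicCompletion K) κ ≠ 0 := (map_ne_zero _).2 hκ
  have hW : x ∈ pl.W := by
    by_contra hW
    apply he
    have := Plc.val_inv_of_notMem (pl := pl) hW
    unfold V
    rwa [map_zero]
  obtain ⟨ξ, hξ⟩ := V_fix hpl hx hW
  refine ⟨{β | ∀ y, y ^ 2 ≠ algebraMap K _ κ * (ξ - β)}, ?_, ?_, ?_⟩
  · exact (ns_open v).preimage (continuous_const.mul (continuous_const.sub continuous_id))
  · refine ⟨ξ - t / algebraMap K _ κ, fun y hy => ht y ?_⟩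
    rw [hy]
    field_simp
    ring
  · intro b hb c hc z hz hbz r hr
    obtain ⟨ζ, hζ⟩ := class_fin hpl hξ hc hz hbz
    refine hb (algebraMap K _ r * ζ) ?_
    rw [hζ, mul_pow, ← map_pow, hr, map_mul]
    ring

end local_

section global

variable {K : Type} [Field K] [NumberField K] {M : Type} [Field M] [Algebra K M] [IsAlgClosed M]
  (A : SAct K M)
  (pl : ∀ v : HeightOneSpectrum (𝓞 K), Plc K M (AlgebraicClosure (v.adicCompletion K)))

/-- **Separation.** If for all `b` one of finitely many rational points has the same classes as the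
section for `x - b`, then at all places the section is given by one of them. -/
theorem separation (hpl : ∀ v, GeoPlc A (pl v)) {x : M} (hx : x ∈ A.fix)
    (hxK : ∀ b : K, x ≠ algebraMap K M b) (E : Finset K) {κ : K} (hκ : κ ≠ 0)
    (H : ∀ b c : K, c ≠ 0 → ∀ z ∈ A.fix, x - algebraMap K M b = algebraMap K M c * z ^ 2 →
      (∃ e ∈ E, ∃ y : K, e - b = c * y ^ 2) ∨ ∃ r : K, r ^ 2 = κ * c) :
    (∃ e ∈ E, ∀ v, (pl v).val (x - algebraMap K M e) 0) ∨ ∀ v, (pl v).val x⁻¹ 0 := by
  classical
  by_contra hcon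
  rw [not_or] at hcon
  obtain ⟨hE, hI⟩ := hcon
  have hcM : CharZero M := charZero_of_injective_algebraMap (algebraMap K M).injective
  have hx0 : x ≠ 0 := by
    have := hxK 0
    rwa [map_zero] at this
  have hV0 : ∀ v (y : M), V v (pl v) y 0 ↔ (pl v).val y 0 := by
    intro v y
    unfold V
    rw [map_zero]
  obtain ⟨c0, hc0, z0, hz0, h0⟩ := A.kummer hx hx0 two_pos
  -- the bad sets
  set T : Finset (Option K) := insert none (E.image some) with hT
  let B : Option K → Set (HeightOneSpectrum (𝓞 K)) := fun i =>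
    match i with
    | none => {v | ¬ V v (pl v) x⁻¹ 0}
    | some e => {v | ¬ V v (pl v) (x - algebraMap K M e) 0}
  have hB : ∀ i ∈ T, (B i).Nonempty := by
    rintro (_ | e) hi
    · push Not at hI
      obtain ⟨v, hv⟩ := hI
      exact ⟨v, fun h => hv ((hV0 v _).1 h)⟩
    · have heE : e ∈ E := by
        rw [hT, Finset.mem_insert] at hi
        rcases hi with h | h
        · cases h
        · obtain ⟨e', he', h'⟩ := Finset.mem_image.1 h
          rw [← Option.some.inj h']
          exact he'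
      by_contra hne
      apply hE
      refine ⟨e, heE, fun v => ?_⟩
      by_contra hv
      exact hne ⟨v, fun h => hv ((hV0 v _).1 h)⟩
  have hinv : ∀ v (e : K), V v (pl v) (x - algebraMap K M e) 0 → V v (pl v) x⁻¹ 0 → False := by
    intro v e h1 h2
    have h3 := V_mul h1 h2
    have h4 : V v (pl v) (1 : M) 1 := by
      have := V_base (pl := pl v) (1 : K)
      rwa [map_one, map_one] at this
    have h5 : V v (pl v) (algebraMap K M e * x⁻¹) 0 := by
      have := V_mul (V_base (pl := pl v) e) h2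
      rwa [mul_zero] at this
    have h6 := V_sub h4 h5
    have e6 : (1 : M) - algebraMap K M e * x⁻¹ = (x - algebraMap K M e) * x⁻¹ := by
      field_simp
    rw [e6] at h6
    have := V_unique h3 h6
    rw [mul_zero, sub_zero] at this
    exact zero_ne_one this
  have hu : ∀ i ∈ T, ∀ j ∈ T, i ≠ j → ∀ v, v ∈ B i ∨ v ∈ B j := by
    rintro (_ | e) - (_ | e') - hij v
    · exact absurd rfl hij
    · by_contra h
      rw [not_or] at h
      exact hinv v e' (not_not.1 h.2) (not_not.1 h.1)
    · by_contra h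
      rw [not_or] at h
      exact hinv v e (not_not.1 h.1) (not_not.1 h.2)
    · by_contra h
      rw [not_or] at h
      have h1 := V_sub (not_not.1 h.1) (not_not.1 h.2)
      have e1 : (x - algebraMap K M e) - (x - algebraMap K M e') = algebraMap K M (e' - e) := by
        rw [map_sub]
        ring
      rw [e1] at h1
      have h2 := V_unique h1 (V_base (e' - e))
      rw [sub_zero] at h2
      have h3 : e' - e = 0 := (map_eq_zero _).1 h2.symm
      exact hij (by rw [sub_eq_zero.1 h3])
  have hinf : Infinite (HeightOneSpectrum (𝓞 K)) := infinite_places K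
  obtain ⟨w, hw1, hw2⟩ := reps T B hB hu
  have hU : ∀ i : Option K, i ∈ T → ∃ U : Set ((w i).adicCompletion K), IsOpen U ∧ U.Nonempty ∧
      ∀ b : K, algebraMap K ((w i).adicCompletion K) b ∈ U → ∀ c : K, c ≠ 0 → ∀ z ∈ A.fix,
        x - algebraMap K M b = algebraMap K M c * z ^ 2 →
        (∀ e : K, i = some e → ∀ y : K, e - b ≠ c * y ^ 2) ∧
        (i = none → ∀ r : K, r ^ 2 ≠ κ * c) := by
    rintro (_ | e) hi
    · obtain ⟨U, h1, h2, h3⟩ := open_none (hpl (w none)) hx (hw2 none hi) hκ
      refine ⟨U, h1, h2, fun b hb c hc z hz h => ⟨?_, fun _ => h3 b hb c hc z hz h⟩⟩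
      rintro e' ⟨⟩
    · obtain ⟨U, h1, h2, h3⟩ := open_some (hpl (w (some e))) hx hx0 (hw2 (some e) hi) hc0 hz0 h0
      refine ⟨U, h1, h2, fun b hb c hc z hz h => ⟨fun e' he' => ?_, fun h => by cases h⟩⟩
      rw [← Option.some.inj he']
      exact h3 b hb c hc z hz h
  choose! U hU1 hU2 hU3 using hU
  obtain ⟨b, hb⟩ := weak T w (fun i hi j hj hij => hw1 i hi j hj hij) U hU1 hU2
  have hxb : x - algebraMap K M b ∈ A.fix := sub_mem hx (A.fix.algebraMap_mem b)
  obtain ⟨c, hc, z, hz, h⟩ := A.kummer hxb (sub_ne_zero.2 (hxK b)) two_pos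
  rcases H b c hc z hz h with ⟨e, he, y, hy⟩ | ⟨r, hr⟩
  · have hi : some e ∈ T := Finset.mem_insert_of_mem (Finset.mem_image_of_mem _ he)
    exact (hU3 (some e) hi b (hb _ hi) c hc z hz h).1 e rfl y hy
  · have hi : none ∈ T := Finset.mem_insert_self _ _
    exact (hU3 none hi b (hb _ hi) c hc z hz h).2 rfl r hr

end global

end Pool.Agent.Helper39.BS
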